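import Mathlib.Data.Fin.Tuple.Basic
import Mathlib.SetTheory.Cardinal.Finite
import Mathlib.Data.Nat.Choose.Sum
import Mathlib.Tactic

/-!
# Counting chains

For a labelling `b : ℕ → ℕ` the number of `c : Fin m → ℕ` with `c < n` such that for all `i < j`
either `c i < c j` or (`c i = c j` and `b j < b i`) is a binomial coefficient `C(n + a, m)`.
-/

namespace Q162ChromH

/-- Admissible sequences. -/
def Adm (b : ℕ → ℕ) (m : ℕ) (c : Fin m → ℕ) : Prop :=
  ∀ i j : Fin m, i < j → c i < c j ∨ (c i = c j ∧ b j < b i)

/-- Admissible sequences with values below `n`. -/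
def AdmSet (b : ℕ → ℕ) (m n : ℕ) : Type :=
  {c : Fin m → ℕ // (∀ i, c i < n) ∧ Adm b m c}

instance (b : ℕ → ℕ) (m n : ℕ) : Finite (AdmSet b m n) := by
  let f : AdmSet b m n → (Fin m → Fin n) := fun c i => ⟨c.1 i, c.2.1 i⟩
  refine Finite.of_injective f ?_
  intro c c' h
  apply Subtype.ext
  funext i
  have := congrFun h i
  exact congrArg Fin.val this

/-- The size of the `m`-th step: `1` if ties are allowed between positions `m-1` and `m`. -/
def stp (b : ℕ → ℕ) (m : ℕ) : ℕ := if 1 ≤ m ∧ b m < b (m - 1) then 1 else 0

theorem adm_snoc (b : ℕ → ℕ) (m : ℕ) (c : Fin m → ℕ) (v : ℕ) :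
    Adm b (m + 1) (Fin.snoc (α := fun _ => ℕ) c v) ↔
      Adm b m c ∧ ∀ i : Fin m, c i < v + stp b m := by
  constructor
  · intro h
    constructor
    · intro i j hij
      have := h i.castSucc j.castSucc (by simpa using hij)
      simpa [Fin.snoc_castSucc] using this
    · intro i
      have h1 := h i.castSucc (Fin.last m) (Fin.castSucc_lt_last i)
      simp only [Fin.snoc_castSucc, Fin.snoc_last, Fin.val_last, Fin.val_castSucc] at h1
      rcases h1 with h1 | ⟨h1, h2⟩
      · omega
      · have hm : 1 ≤ m := by
          have := i.2
          omega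
        have h3 : b m < b (m - 1) := by
          have h4 := h (⟨m - 1, by omega⟩ : Fin m).castSucc (Fin.last m) (Fin.castSucc_lt_last _)
          simp only [Fin.snoc_castSucc, Fin.snoc_last, Fin.val_last, Fin.val_castSucc] at h4
          rcases h4 with h4 | ⟨_, h5⟩
          · exfalso
            by_cases hi : i = ⟨m - 1, by omega⟩
            · rw [← hi] at h4
              omega
            · have hlt : i < ⟨m - 1, by omega⟩ := by
                rw [Fin.lt_def]
                have h6 := i.2
                have h7 : (i : ℕ) ≠ m - 1 := fun e => hi (Fin.ext e)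
                simp only
                omega
              have h8 := h i.castSucc (⟨m - 1, by omega⟩ : Fin m).castSucc
                (Fin.castSucc_lt_castSucc_iff.mpr hlt)
              simp only [Fin.snoc_castSucc, Fin.val_castSucc] at h8
              omega
          · exact h5
        have : stp b m = 1 := by
          unfold stp
          rw [if_pos ⟨hm, h3⟩]
        omega
  · rintro ⟨h1, h2⟩ i j hij
    induction i using Fin.lastCases with
    | last =>
      exfalso
      exact absurd hij (not_lt.mpr (Fin.le_last j))
    | cast i =>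
      induction j using Fin.lastCases with
      | cast j =>
        have := h1 i j (by simpa using hij)
        simpa [Fin.snoc_castSucc] using this
      | last =>
        simp only [Fin.snoc_castSucc, Fin.snoc_last, Fin.val_last, Fin.val_castSucc]
        have h3 := h2 i
        unfold stp at h3
        split_ifs at h3 with hs
        · rcases Nat.lt_or_ge (c i) v with h4 | h4
          · exact Or.inl h4
          · right
            have h5 : c i = v := by omega
            refine ⟨h5, ?_⟩
            have hm := hs.1
            by_cases hi : (i : ℕ) = m - 1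
            · rw [hi]
              exact hs.2
            · have hlt : i < (⟨m - 1, by omega⟩ : Fin m) := by
                rw [Fin.lt_def]
                have h6 := i.2
                simp only
                omega
              have h8 := h1 i ⟨m - 1, by omega⟩ hlt
              have h9 := h2 ⟨m - 1, by omega⟩
              unfold stp at h9
              rw [if_pos hs] at h9
              simp only at h8
              rcases h8 with h8 | ⟨_, h8⟩
              · omega
              · exact lt_trans hs.2 h8
        · left
          omega

/-- Adding a last value. -/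
def admGlue (b : ℕ → ℕ) (m n : ℕ) (p : Σ v : Fin n, AdmSet b m (v + stp b m)) :
    AdmSet b (m + 1) n := by
  refine ⟨Fin.snoc (α := fun _ => ℕ) p.2.1 p.1, ?_, ?_⟩
  · intro i
    induction i using Fin.lastCases with
    | last =>
      rw [Fin.snoc_last]
      exact p.1.2
    | cast i =>
      rw [Fin.snoc_castSucc]
      have h1 := p.2.2.1 i
      have h2 := p.1.2
      have h3 : stp b m ≤ 1 := by
        unfold stp
        split_ifs <;> omega
      omega
  · rw [adm_snoc]
    exact ⟨p.2.2.2, p.2.2.1⟩

theorem admGlue_bijective (b : ℕ → ℕ) (m n : ℕ) : Function.Bijective (admGlue b m n) := by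
  constructor
  · rintro ⟨v, c⟩ ⟨v', c'⟩ h
    have h1 : (Fin.snoc (α := fun _ => ℕ) c.1 (v : ℕ) : Fin (m + 1) → ℕ)
        = Fin.snoc (α := fun _ => ℕ) c'.1 (v' : ℕ) := congrArg Subtype.val h
    have h2 : v = v' := by
      apply Fin.ext
      have := congrFun h1 (Fin.last m)
      simpa [Fin.snoc_last] using this
    subst h2
    have h3 : c = c' := by
      apply Subtype.ext
      funext i
      have := congrFun h1 i.castSucc
      simpa [Fin.snoc_castSucc] using this
    rw [h3]
  · intro c
    have h := c.2.2
    rw [← Fin.snoc_init_self c.1] at h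
    have h' := (adm_snoc b m _ _).1 h
    refine ⟨⟨⟨c.1 (Fin.last m), c.2.1 _⟩, ⟨Fin.init c.1, h'.2, h'.1⟩⟩, ?_⟩
    apply Subtype.ext
    exact Fin.snoc_init_self c.1

theorem card_admSet_zero (b : ℕ → ℕ) (n : ℕ) : Nat.card (AdmSet b 0 n) = 1 := by
  have : Unique (AdmSet b 0 n) := by
    refine ⟨⟨⟨Fin.elim0, fun i => i.elim0, fun i => i.elim0⟩⟩, ?_⟩
    intro c
    apply Subtype.ext
    funext i
    exact i.elim0
  exact Nat.card_unique

theorem card_admSet_succ (b : ℕ → ℕ) (m n : ℕ) :
    Nat.card (AdmSet b (m + 1) n) = ∑ v ∈ Finset.range n, Nat.card (AdmSet b m (v + stp b m)) := by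
  rw [← Nat.card_eq_of_bijective _ (admGlue_bijective b m n), Nat.card_sigma,
    ← Fin.sum_univ_eq_sum_range (fun v => Nat.card (AdmSet b m (v + stp b m)))]

/-- The number of places where ties are allowed. -/
def ties (b : ℕ → ℕ) (m : ℕ) : ℕ := ∑ k ∈ Finset.range m, stp b k

theorem ties_le (b : ℕ → ℕ) (m : ℕ) (hm : 1 ≤ m) : ties b m + 1 ≤ m := by
  unfold ties
  induction m, hm using Nat.le_induction with
  | base => simp [stp]
  | succ m hm ih =>
    rw [Finset.sum_range_succ]
    have h3 : stp b m ≤ 1 := by
      unfold stp
      split_ifs <;> omega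
    omega

theorem sum_choose_add (a m n : ℕ) :
    ∑ v ∈ Finset.range n, (v + a).choose m + a.choose (m + 1) = (n + a).choose (m + 1) := by
  induction n with
  | zero => simp
  | succ n ih =>
    rw [Finset.sum_range_succ, show n + 1 + a = (n + a) + 1 by ring, Nat.choose_succ_succ' (n + a) m]
    omega

theorem card_admSet (b : ℕ → ℕ) (m : ℕ) : ∀ n, 
    Nat.card (AdmSet b m n) = (n + ties b m).choose m := by
  induction m with
  | zero =>
    intro n
    rw [card_admSet_zero]
    simp
  | succ m ih =>
    intro n
    rw [card_admSet_succ]
    have h1 : ∀ v, Nat.card (AdmSet b m (v + stp b m)) = (v + ties b (m + 1)).choose m := by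
      intro v
      rw [ih]
      unfold ties
      rw [Finset.sum_range_succ]
      congr 1
      ring
    simp only [h1]
    have h2 := sum_choose_add (ties b (m + 1)) m n
    have h3 : (ties b (m + 1)).choose (m + 1) = 0 := by
      apply Nat.choose_eq_zero_of_lt
      exact ties_le b (m + 1) (by omega)
    omega

end Q162ChromH
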