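import Mathlib.RingTheory.PowerSeries.WellKnown
import Mathlib.RingTheory.PowerSeries.Derivative
import Mathlib.Tactic

/-!
# Numerators of power series of polynomial growth

For a sequence `f : ℕ → ℤ` we consider the coefficients of `(1 - X)^(d+1) * ∑ f n X^n`.
The sequences `n ↦ C(n + a, d)` give a single monomial, and `n ↦ n^d` gives the (palindromic)
Eulerian polynomial.
-/

namespace Q162ChromH

open PowerSeries

/-- The coefficient of `z^i` in `(1-z)^(d+1) ∑ₙ f(n) zⁿ`. -/
noncomputable def num (d : ℕ) (f : ℕ → ℤ) (i : ℕ) : ℤ :=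
  coeff i ((1 - X : PowerSeries ℤ) ^ (d + 1) * PowerSeries.mk f)

theorem num_add (d : ℕ) (f g : ℕ → ℤ) (i : ℕ) :
    num d (fun n => f n + g n) i = num d f i + num d g i := by
  unfold num
  rw [← map_add, ← mul_add]
  congr 2

theorem num_sum {ι : Type*} (s : Finset ι) (d : ℕ) (f : ι → ℕ → ℤ) (i : ℕ) :
    num d (fun n => ∑ k ∈ s, f k n) i = ∑ k ∈ s, num d (f k) i := by
  classical
  induction s using Finset.induction_on with
  | empty =>
    simp only [Finset.sum_empty]
    unfold num
    have : (PowerSeries.mk (fun _ : ℕ => (0 : ℤ))) = 0 := by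
      ext n
      simp
    rw [this]
    simp
  | insert a s ha ih =>
    simp only [Finset.sum_insert ha]
    rw [num_add, ih]

/-- `(1-z)^(d+2) F = (1-z)^(d+1) F - z (1-z)^(d+1) F`. -/
theorem num_succ_succ (d : ℕ) (f : ℕ → ℤ) (i : ℕ) :
    num (d + 1) f (i + 1) = num d f (i + 1) - num d f i := by
  unfold num
  have : (1 - X : PowerSeries ℤ) ^ (d + 1 + 1) * PowerSeries.mk f
      = (1 - X : PowerSeries ℤ) ^ (d + 1) * PowerSeries.mk f
        - X * ((1 - X : PowerSeries ℤ) ^ (d + 1) * PowerSeries.mk f) := by ring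
  rw [this, map_sub, PowerSeries.coeff_succ_X_mul]

theorem num_succ_zero (d : ℕ) (f : ℕ → ℤ) :
    num (d + 1) f 0 = num d f 0 := by
  unfold num
  have : (1 - X : PowerSeries ℤ) ^ (d + 1 + 1) * PowerSeries.mk f
      = (1 - X : PowerSeries ℤ) ^ (d + 1) * PowerSeries.mk f
        - X * ((1 - X : PowerSeries ℤ) ^ (d + 1) * PowerSeries.mk f) := by ring
  rw [this, map_sub, PowerSeries.coeff_zero_X_mul, sub_zero]

theorem mk_choose_eq (d a : ℕ) (h : a ≤ d) :
    (PowerSeries.mk (fun n => ((n + a).choose d : ℤ)))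
      = X ^ (d - a) * PowerSeries.mk (fun n => ((d + n).choose d : ℤ)) := by
  ext n
  rw [PowerSeries.coeff_mk, PowerSeries.coeff_X_pow_mul']
  split_ifs with hn
  · rw [PowerSeries.coeff_mk]
    congr 2
    omega
  · rw [Nat.choose_eq_zero_of_lt (by omega)]
    rfl

theorem num_choose (d a : ℕ) (h : a ≤ d) (i : ℕ) :
    num d (fun n => ((n + a).choose d : ℤ)) i = if i = d - a then 1 else 0 := by
  unfold num
  rw [mk_choose_eq d a h]
  have h1 := PowerSeries.mk_add_choose_mul_one_sub_pow_eq_one ℤ d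
  have : (1 - X : PowerSeries ℤ) ^ (d + 1) *
      (X ^ (d - a) * PowerSeries.mk (fun n => ((d + n).choose d : ℤ))) = X ^ (d - a) := by
    calc (1 - X : PowerSeries ℤ) ^ (d + 1) *
      (X ^ (d - a) * PowerSeries.mk (fun n => ((d + n).choose d : ℤ)))
        = X ^ (d - a) * (PowerSeries.mk (fun n => ((d + n).choose d : ℤ)) *
            (1 - X : PowerSeries ℤ) ^ (d + 1)) := by ring
      _ = X ^ (d - a) := by rw [h1, mul_one]
  rw [this, PowerSeries.coeff_X_pow]

theorem num_choose_nonneg (d a : ℕ) (h : a ≤ d) (i : ℕ) :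
    0 ≤ num d (fun n => ((n + a).choose d : ℤ)) i := by
  rw [num_choose d a h]
  split_ifs <;> simp

theorem num_choose_eq_zero (d a : ℕ) (h : a ≤ d) (i : ℕ) (hi : d < i) :
    num d (fun n => ((n + a).choose d : ℤ)) i = 0 := by
  rw [num_choose d a h, if_neg (by omega)]

/-! ### The Eulerian numerator -/

theorem mk_pow_succ (d : ℕ) :
    (PowerSeries.mk (fun n => ((n : ℤ) ^ (d + 1)))) =
      X * derivative ℤ (PowerSeries.mk (fun n => ((n : ℤ) ^ d))) := by
  ext n
  rcases n with _ | n
  · simp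
  · rw [PowerSeries.coeff_mk, PowerSeries.coeff_succ_X_mul, PowerSeries.coeff_derivative,
      PowerSeries.coeff_mk]
    push_cast
    ring

theorem one_sub_X_pow_mk_pow_succ (d : ℕ) :
    (1 - X : PowerSeries ℤ) ^ (d + 2) * (PowerSeries.mk (fun n => ((n : ℤ) ^ (d + 1)))) =
      X * (1 - X) * derivative ℤ ((1 - X : PowerSeries ℤ) ^ (d + 1) *
        PowerSeries.mk (fun n => ((n : ℤ) ^ d)))
      + ((d : PowerSeries ℤ) + 1) * (X * ((1 - X : PowerSeries ℤ) ^ (d + 1) *
        PowerSeries.mk (fun n => ((n : ℤ) ^ d)))) := by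
  rw [mk_pow_succ d, Derivation.leibniz, Derivation.leibniz_pow, map_sub,
    PowerSeries.derivative_X, PowerSeries.derivative_one]
  simp only [smul_eq_mul, nsmul_eq_mul, Nat.add_sub_cancel]
  push_cast
  ring

theorem euler_rec (d j : ℕ) :
    num (d + 1) (fun n => ((n : ℤ) ^ (d + 1))) (j + 1) =
      (j + 1) * num d (fun n => ((n : ℤ) ^ d)) (j + 1)
      + ((d : ℤ) + 1 - j) * num d (fun n => ((n : ℤ) ^ d)) j := by
  unfold num
  rw [show d + 1 + 1 = d + 2 from rfl, one_sub_X_pow_mk_pow_succ]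
  set E := (1 - X : PowerSeries ℤ) ^ (d + 1) * PowerSeries.mk (fun n => ((n : ℤ) ^ d)) with hE
  have h1 : X * (1 - X) * derivative ℤ E + ((d : PowerSeries ℤ) + 1) * (X * E)
      = X * (derivative ℤ E - X * derivative ℤ E) + X * (((d : PowerSeries ℤ) + 1) * E) := by ring
  have h2 : ((d : PowerSeries ℤ) + 1) = PowerSeries.C ((d : ℤ) + 1) := by simp
  rw [h1, map_add, PowerSeries.coeff_succ_X_mul, PowerSeries.coeff_succ_X_mul, map_sub, h2,
    PowerSeries.coeff_C_mul, PowerSeries.coeff_derivative]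
  rcases j with _ | j
  · rw [PowerSeries.coeff_zero_X_mul]
    push_cast
    ring
  · rw [PowerSeries.coeff_succ_X_mul, PowerSeries.coeff_derivative]
    push_cast
    ring

theorem euler_zero (d : ℕ) (hd : 1 ≤ d) : num d (fun n => ((n : ℤ) ^ d)) 0 = 0 := by
  unfold num
  rw [PowerSeries.coeff_zero_eq_constantCoeff, map_mul]
  have : PowerSeries.constantCoeff (PowerSeries.mk (fun n => ((n : ℤ) ^ d))) = 0 := by
    rw [← PowerSeries.coeff_zero_eq_constantCoeff_apply, PowerSeries.coeff_mk]
    simp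
    omega
  rw [this, mul_zero]

theorem euler_one (j : ℕ) : num 1 (fun n => ((n : ℤ) ^ 1)) j = if j = 1 then 1 else 0 := by
  have h := num_choose 1 0 (by norm_num) j
  have e : (fun n : ℕ => ((n : ℤ) ^ 1)) = (fun n => ((n + 0).choose 1 : ℤ)) := by
    funext n
    simp
  rw [e, h]

theorem euler_vanish (d : ℕ) (hd : 1 ≤ d) : ∀ j, d < j → num d (fun n => ((n : ℤ) ^ d)) j = 0 := by
  induction d, hd using Nat.le_induction with
  | base =>
    intro j hj
    rw [euler_one, if_neg (by omega)]
  | succ d hd ih =>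
    intro j hj
    obtain ⟨k, rfl⟩ : ∃ k, j = k + 1 := ⟨j - 1, by omega⟩
    rw [euler_rec, ih (k + 1) (by omega), mul_zero, zero_add]
    rcases Nat.lt_or_ge d k with h | h
    · rw [ih k h, mul_zero]
    · omega

theorem euler_symm (d : ℕ) (hd : 1 ≤ d) : ∀ j k, j + k = d + 1 →
    num d (fun n => ((n : ℤ) ^ d)) j = num d (fun n => ((n : ℤ) ^ d)) k := by
  induction d, hd using Nat.le_induction with
  | base =>
    intro j k hjk
    rw [euler_one, euler_one]
    split_ifs <;> omega
  | succ d hd ih =>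
    intro j k hjk
    rcases j with _ | j
    · rw [euler_zero _ (by omega), euler_vanish _ (by omega) _ (by omega)]
    rcases k with _ | k
    · rw [euler_zero _ (by omega), euler_vanish _ (by omega) _ (by omega)]
    have hk : k + 1 + j = d + 1 := by omega
    rw [euler_rec, euler_rec, ih (j + 1) k (by omega), ih (k + 1) j hk]
    have : (d : ℤ) = j + k := by
      have : d = j + k := by omega
      exact_mod_cast this
    rw [this]
    ring

end Q162ChromH
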