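import Mathlib.Combinatorics.SimpleGraph.Basic
import Mathlib.Data.Finset.Sort
import Pool.Agent.Q162.ChromH.Chain
import Pool.Agent.Q162.ChromH.Euler

/-!
# Proper colourings of a graph as a sum of binomial coefficients
-/

namespace Q162ChromH

/-- The number of proper colourings of `G` with `n` colours. -/
noncomputable def chi {V : Type*} (G : SimpleGraph V) (n : ℕ) : ℕ :=
  Nat.card {κ : V → Fin n // ∀ x y, G.Adj x y → κ x ≠ κ y}

theorem exists_sort {V : Type*} [Fintype V] {d : ℕ} (hd : Fintype.card V = d) (f : V → ℕ)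
    (hf : Function.Injective f) : ∃ σ : V ≃ Fin d, ∀ x y, σ x < σ y ↔ f x < f y := by
  classical
  have hs : (Finset.univ.image f).card = d := by
    rw [Finset.card_image_of_injective _ hf, Finset.card_univ, hd]
  let e := (Finset.univ.image f).orderIsoOfFin hs
  let g : V → (Finset.univ.image f : Finset ℕ) := fun x => ⟨f x, by simp⟩
  have hg : Function.Bijective g := by
    constructor
    · intro x y h
      exact hf (congrArg Subtype.val h)
    · rintro ⟨a, ha⟩
      obtain ⟨x, -, hx⟩ := Finset.mem_image.mp ha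
      exact ⟨x, Subtype.ext hx⟩
  refine ⟨(Equiv.ofBijective g hg).trans e.symm.toEquiv, ?_⟩
  intro x y
  simp only [Equiv.trans_apply, Equiv.ofBijective_apply, RelIso.coe_fn_toEquiv]
  rw [OrderIso.lt_iff_lt]
  exact Iff.rfl

theorem sort_unique {V : Type*} {d : ℕ} (σ σ' : V ≃ Fin d)
    (h : ∀ x y, σ x < σ y → σ' x < σ' y) : σ = σ' := by
  have h2 : StrictMono (fun i => σ' (σ.symm i)) := by
    intro i j hij
    apply h
    simpa using hij
  have h3 : ∀ i, σ' (σ.symm i) = i := by
    intro i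
    have h4 : StrictMono.orderIsoOfSurjective _ h2 (σ'.surjective.comp σ.symm.surjective) =
        OrderIso.refl (Fin d) := Subsingleton.elim _ _
    have := congrArg (fun e => e i) h4
    simpa using this
  ext x
  have := h3 (σ x)
  simp only [Equiv.symm_apply_apply] at this
  rw [this]

variable {V : Type*} {d : ℕ}

/-- The orientation of `G` given by an ordering of the vertices. -/
def orient (G : SimpleGraph V) (σ : V ≃ Fin d) (x y : V) : Prop := G.Adj x y ∧ σ x < σ y

/-- A chosen ordering giving the orientation `O`. -/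
noncomputable def repO (G : SimpleGraph V) (O : V → V → Prop)
    (h : ∃ τ : V ≃ Fin d, orient G τ = O) : V ≃ Fin d := h.choose

/-- A representative ordering giving the same orientation as `σ`. -/
noncomputable def rep (G : SimpleGraph V) (σ : V ≃ Fin d) : V ≃ Fin d :=
  repO G (orient G σ) ⟨σ, rfl⟩

theorem orient_rep (G : SimpleGraph V) (σ : V ≃ Fin d) : orient G (rep G σ) = orient G σ :=
  Exists.choose_spec (p := fun τ : V ≃ Fin d => orient G τ = orient G σ) ⟨σ, rfl⟩

theorem rep_congr (G : SimpleGraph V) (σ σ' : V ≃ Fin d) (h : orient G σ = orient G σ') :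
    rep G σ = rep G σ' := by
  have key : ∀ (O O' : V → V → Prop) (e : O = O') (h : ∃ τ : V ≃ Fin d, orient G τ = O)
      (h' : ∃ τ : V ≃ Fin d, orient G τ = O'), repO G O h = repO G O' h' := by
    intro O O' e h h'
    subst e
    rfl
  exact key _ _ h _ _

/-- The colourings sorted by `σ`, ties broken by the representative of `σ`. -/
def InA (G : SimpleGraph V) (σ : V ≃ Fin d) {n : ℕ} (κ : V → Fin n) : Prop :=
  ∀ x y, σ x < σ y → κ x < κ y ∨ (κ x = κ y ∧ rep G σ y < rep G σ x)

theorem InA.adj {G : SimpleGraph V} {σ : V ≃ Fin d} {n : ℕ} {κ : V → Fin n} (h : InA G σ κ)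
    {x y : V} (hxy : G.Adj x y) (hs : σ x < σ y) : κ x < κ y := by
  rcases h x y hs with h1 | ⟨_, h2⟩
  · exact h1
  · exfalso
    have h3 : orient G σ x y := ⟨hxy, hs⟩
    rw [← orient_rep] at h3
    exact absurd h3.2 (not_lt.mpr h2.le)

theorem InA.orient_iff {G : SimpleGraph V} {σ : V ≃ Fin d} {n : ℕ} {κ : V → Fin n}
    (h : InA G σ κ) : orient G σ = fun x y => G.Adj x y ∧ κ x < κ y := by
  funext x y
  apply propext
  constructor
  · rintro ⟨h1, h2⟩
    exact ⟨h1, h.adj h1 h2⟩
  · rintro ⟨h1, h2⟩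
    refine ⟨h1, ?_⟩
    rcases lt_trichotomy (σ x) (σ y) with h3 | h3 | h3
    · exact h3
    · exact absurd (σ.injective h3) h1.ne
    · exact absurd (h.adj h1.symm h3) (not_lt.mpr h2.le)

theorem InA.proper {G : SimpleGraph V} {σ : V ≃ Fin d} {n : ℕ} {κ : V → Fin n}
    (h : InA G σ κ) : ∀ x y, G.Adj x y → κ x ≠ κ y := by
  intro x y hxy
  rcases lt_trichotomy (σ x) (σ y) with h3 | h3 | h3
  · exact (h.adj hxy h3).ne
  · exact absurd (σ.injective h3) hxy.ne
  · exact (h.adj hxy.symm h3).ne'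

/-- A colouring together with its sorting permutation gives a proper colouring. -/
def toProper (G : SimpleGraph V) (d n : ℕ)
    (p : Σ σ : V ≃ Fin d, {κ : V → Fin n // InA G σ κ}) :
    {κ : V → Fin n // ∀ x y, G.Adj x y → κ x ≠ κ y} :=
  ⟨p.2.1, p.2.2.proper⟩

theorem toProper_injective (G : SimpleGraph V) (d n : ℕ) :
    Function.Injective (toProper G d n) := by
  rintro ⟨σ, κ, h⟩ ⟨σ', κ', h'⟩ e
  have e1 : κ = κ' := congrArg Subtype.val e
  subst e1
  have e2 : orient G σ = orient G σ' := by rw [h.orient_iff, h'.orient_iff]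
  have e3 : rep G σ = rep G σ' := rep_congr G σ σ' e2
  have e4 : σ = σ' := by
    apply sort_unique
    intro x y hxy
    rcases lt_trichotomy (σ' x) (σ' y) with h3 | h3 | h3
    · exact h3
    · have := σ'.injective h3
      rw [this] at hxy
      exact absurd hxy (lt_irrefl _)
    · exfalso
      have h4 := h x y hxy
      have h5 := h' y x h3
      rw [← e3] at h5
      rcases h4 with h4 | ⟨h4, h6⟩
      · rcases h5 with h5 | ⟨h5, _⟩
        · exact absurd h4 (not_lt.mpr h5.le)
        · exact absurd h5 h4.ne'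
      · rcases h5 with h5 | ⟨_, h7⟩
        · exact absurd h4 h5.ne'
        · exact absurd h6 (not_lt.mpr h7.le)
  subst e4
  rfl

theorem exists_sort2 [Fintype V] (hd : Fintype.card V = d) {n : ℕ} (κ : V → Fin n)
    (t : V → Fin d) (ht : Function.Injective t) :
    ∃ σ : V ≃ Fin d, ∀ x y, σ x < σ y ↔ (κ x < κ y ∨ (κ x = κ y ∧ t y < t x)) := by
  have key : ∀ x y, (κ x : ℕ) * d + (d - 1 - (t x : ℕ)) < (κ y : ℕ) * d + (d - 1 - (t y : ℕ)) ↔
      (κ x < κ y ∨ (κ x = κ y ∧ t y < t x)) := by
    intro x y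
    have h1 := (t x).2
    have h2 := (t y).2
    rw [Fin.lt_def, Fin.lt_def, Fin.ext_iff]
    constructor
    · intro h
      rcases lt_trichotomy (κ x : ℕ) (κ y : ℕ) with h3 | h3 | h3
      · exact Or.inl h3
      · right
        refine ⟨h3, ?_⟩
        rw [h3] at h
        omega
      · exfalso
        have h4 : ((κ y : ℕ) + 1) * d ≤ (κ x : ℕ) * d := Nat.mul_le_mul_right _ h3
        rw [Nat.add_mul] at h4
        omega
    · rintro (h | ⟨h, h'⟩)
      · have h4 : ((κ x : ℕ) + 1) * d ≤ (κ y : ℕ) * d := Nat.mul_le_mul_right _ h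
        rw [Nat.add_mul] at h4
        omega
      · rw [h]
        omega
  have hinj : Function.Injective (fun x => (κ x : ℕ) * d + (d - 1 - (t x : ℕ))) := by
    intro x y h
    have h' : (κ x : ℕ) * d + (d - 1 - (t x : ℕ)) = (κ y : ℕ) * d + (d - 1 - (t y : ℕ)) := h
    apply ht
    have k1 := (key x y).not.1 (by omega)
    have k2 := (key y x).not.1 (by omega)
    push Not at k1 k2
    have k3 : κ x = κ y := le_antisymm k2.1 k1.1
    exact le_antisymm (k1.2 k3) (k2.2 k3.symm)
  obtain ⟨σ, hσ⟩ := exists_sort hd _ hinj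
  exact ⟨σ, fun x y => (hσ x y).trans (key x y)⟩

theorem toProper_surjective [Fintype V] (hd : Fintype.card V = d) (G : SimpleGraph V) (n : ℕ) :
    Function.Surjective (toProper G d n) := by
  rintro ⟨κ, hκ⟩
  let t₀ : V ≃ Fin d := Fintype.equivFinOfCardEq hd
  obtain ⟨σ₀, h₀⟩ := exists_sort2 hd κ t₀ t₀.injective
  obtain ⟨σ, h⟩ := exists_sort2 hd κ (rep G σ₀) (rep G σ₀).injective
  have e : orient G σ = orient G σ₀ := by
    funext x y
    apply propext
    unfold orient
    rw [h, h₀]
    constructor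
    · rintro ⟨h1, h2⟩
      refine ⟨h1, ?_⟩
      rcases h2 with h2 | ⟨h2, _⟩
      · exact Or.inl h2
      · exact absurd h2 (hκ x y h1)
    · rintro ⟨h1, h2⟩
      refine ⟨h1, ?_⟩
      rcases h2 with h2 | ⟨h2, _⟩
      · exact Or.inl h2
      · exact absurd h2 (hκ x y h1)
  have e' : rep G σ = rep G σ₀ := rep_congr G _ _ e
  refine ⟨⟨σ, κ, ?_⟩, rfl⟩
  intro x y hxy
  rw [e']
  exact (h x y).1 hxy

/-- The labelling of positions attached to `σ`. -/
noncomputable def lab (G : SimpleGraph V) (σ : V ≃ Fin d) (i : ℕ) : ℕ :=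
  if h : i < d then (rep G σ (σ.symm ⟨i, h⟩) : ℕ) else 0

theorem lab_coe (G : SimpleGraph V) (σ : V ≃ Fin d) (i : Fin d) :
    lab G σ i = (rep G σ (σ.symm i) : ℕ) := by
  unfold lab
  rw [dif_pos i.2]

/-- Sorted colourings are admissible sequences. -/
def inAEquiv (G : SimpleGraph V) (σ : V ≃ Fin d) (n : ℕ) :
    {κ : V → Fin n // InA G σ κ} ≃ AdmSet (lab G σ) d n where
  toFun κ := ⟨fun i => (κ.1 (σ.symm i) : ℕ), fun i => (κ.1 (σ.symm i)).2, by
    intro i j hij
    have := κ.2 (σ.symm i) (σ.symm j) (by simpa using hij)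
    rw [lab_coe, lab_coe, ← Fin.lt_def, ← Fin.lt_def, ← Fin.ext_iff]
    exact this⟩
  invFun c := ⟨fun x => ⟨c.1 (σ x), c.2.1 _⟩, by
    intro x y hxy
    have := c.2.2 (σ x) (σ y) hxy
    rw [lab_coe, lab_coe] at this
    simp only [Equiv.symm_apply_apply] at this
    rw [Fin.lt_def, Fin.lt_def, Fin.ext_iff]
    exact this⟩
  left_inv κ := by
    apply Subtype.ext
    funext x
    simp
  right_inv c := by
    apply Subtype.ext
    funext i
    simp

theorem chi_eq_sum [Fintype V] [DecidableEq V] (hd : Fintype.card V = d) (G : SimpleGraph V) (n : ℕ) :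
    chi G n = ∑ σ : V ≃ Fin d, (n + ties (lab G σ) d).choose d := by
  unfold chi
  rw [← Nat.card_eq_of_bijective _ ⟨toProper_injective G d n, toProper_surjective hd G n⟩,
    Nat.card_sigma]
  refine Finset.sum_congr rfl fun σ _ => ?_
  rw [Nat.card_congr (inAEquiv G σ n), card_admSet]

theorem num_chi_eq_sum [Fintype V] [DecidableEq V] (hd : Fintype.card V = d) (G : SimpleGraph V)
    (i : ℕ) : num d (fun n => (chi G n : ℤ)) i =
      ∑ σ : V ≃ Fin d, num d (fun n => (((n + ties (lab G σ) d).choose d : ℕ) : ℤ)) i := by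
  rw [← num_sum]
  congr 1
  funext n
  rw [chi_eq_sum hd]
  push_cast
  rfl

theorem num_chi_nonneg [Fintype V] (hd : Fintype.card V = d) (hd1 : 1 ≤ d) (G : SimpleGraph V)
    (i : ℕ) : 0 ≤ num d (fun n => (chi G n : ℤ)) i := by
  classical
  rw [num_chi_eq_sum hd]
  apply Finset.sum_nonneg
  intro σ _
  apply num_choose_nonneg
  have := ties_le (lab G σ) d hd1
  omega

theorem num_chi_eq_zero [Fintype V] (hd : Fintype.card V = d) (hd1 : 1 ≤ d) (G : SimpleGraph V)
    (i : ℕ) (hi : d < i) : num d (fun n => (chi G n : ℤ)) i = 0 := by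
  classical
  rw [num_chi_eq_sum hd]
  apply Finset.sum_eq_zero
  intro σ _
  apply num_choose_eq_zero _ _ _ _ hi
  have := ties_le (lab G σ) d hd1
  omega

end Q162ChromH
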