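import Mathlib.Combinatorics.SimpleGraph.Basic
import Mathlib.Algebra.BigOperators.Group.Finset.Basic
import Pool.Agent.Q162.ChromH.Graph

/-!
# Deletion and contraction, and the partial-sum inequality
-/

namespace Q162ChromH

open Finset

variable {V : Type*}

/-- Deletion of the edge `uv`. -/
def del (G : SimpleGraph V) (u v : V) : SimpleGraph V where
  Adj x y := G.Adj x y ∧ ¬ ((x = u ∧ y = v) ∨ (x = v ∧ y = u))
  symm := ⟨fun x y h => ⟨h.1.symm, fun h' => h.2 (by tauto)⟩⟩
  loopless := ⟨fun x h => h.1.ne rfl⟩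

/-- Contraction of the edge `uv` to the vertex `u`. -/
def con (G : SimpleGraph V) (u v : V) : SimpleGraph {x : V // x ≠ v} where
  Adj x y := x ≠ y ∧ (G.Adj x y ∨ (x.1 = u ∧ G.Adj v y) ∨ (y.1 = u ∧ G.Adj x v))
  symm := ⟨fun x y h => ⟨h.1.symm, by
    rcases h.2 with h | ⟨h, h'⟩ | ⟨h, h'⟩
    · exact Or.inl h.symm
    · exact Or.inr (Or.inr ⟨h, h'.symm⟩)
    · exact Or.inr (Or.inl ⟨h, h'.symm⟩)⟩⟩
  loopless := ⟨fun x h => h.1 rfl⟩

theorem del_lt (G : SimpleGraph V) (u v : V) (h : G.Adj u v) : del G u v < G := by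
  refine lt_of_le_of_ne (fun x y hxy => hxy.1) ?_
  intro e
  have : (del G u v).Adj u v := by
    rw [e]
    exact h
  exact this.2 (Or.inl ⟨rfl, rfl⟩)

/-- Colourings of `G` are the colourings of `G - e` with different colours on the ends. -/
def delEquiv (G : SimpleGraph V) (u v : V) (h : G.Adj u v) (n : ℕ) :
    {κ : V → Fin n // ∀ x y, G.Adj x y → κ x ≠ κ y} ≃
      {κ : {κ : V → Fin n // ∀ x y, (del G u v).Adj x y → κ x ≠ κ y} // ¬ κ.1 u = κ.1 v} where
  toFun κ := ⟨⟨κ.1, fun x y hxy => κ.2 x y hxy.1⟩, κ.2 u v h⟩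
  invFun κ := ⟨κ.1.1, by
    intro x y hxy
    by_cases h1 : (x = u ∧ y = v) ∨ (x = v ∧ y = u)
    · rcases h1 with ⟨h1, h2⟩ | ⟨h1, h2⟩
      · rw [h1, h2]
        exact κ.2
      · rw [h1, h2]
        exact fun e => κ.2 e.symm
    · exact κ.1.2 x y ⟨hxy, h1⟩⟩
  left_inv κ := rfl
  right_inv κ := rfl

open Classical in
/-- Colourings of `G / e` are the colourings of `G - e` with equal colours on the ends. -/
noncomputable def conEquiv (G : SimpleGraph V) (u v : V) (h : G.Adj u v) (n : ℕ) :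
    {κ : {x : V // x ≠ v} → Fin n // ∀ x y, (con G u v).Adj x y → κ x ≠ κ y} ≃
      {κ : {κ : V → Fin n // ∀ x y, (del G u v).Adj x y → κ x ≠ κ y} // κ.1 u = κ.1 v} where
  toFun κ := ⟨⟨fun x => if hx : x = v then κ.1 ⟨u, h.ne⟩ else κ.1 ⟨x, hx⟩, by
    rintro x y ⟨hxy, hne⟩
    by_cases hx : x = v
    · have hy : y ≠ v := fun e => hxy.ne (hx.trans e.symm)
      have hyu : y ≠ u := fun e => hne (Or.inr ⟨hx, e⟩)
      simp only [hx, hy, dif_pos, dif_neg, not_false_iff]
      apply κ.2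
      have hvy : G.Adj v y := hx ▸ hxy
      exact ⟨fun e => hyu (congrArg Subtype.val e).symm, Or.inr (Or.inl ⟨rfl, hvy⟩)⟩
    · by_cases hy : y = v
      · have hxu : x ≠ u := fun e => hne (Or.inl ⟨e, hy⟩)
        simp only [hx, hy, dif_pos, dif_neg, not_false_iff]
        apply κ.2
        have hvx : G.Adj x v := hy ▸ hxy
        exact ⟨fun e => hxu (congrArg Subtype.val e), Or.inr (Or.inr ⟨rfl, hvx⟩)⟩
      · simp only [hx, hy, dif_neg, not_false_iff]
        apply κ.2
        exact ⟨fun e => hxy.ne (congrArg Subtype.val e), Or.inl hxy⟩⟩, by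
    simp only [dif_pos, h.ne, dif_neg, not_false_iff]⟩
  invFun κ := ⟨fun x => κ.1.1 x, by
    rintro ⟨x, hx⟩ ⟨y, hy⟩ ⟨hne, hxy⟩
    have hne' : x ≠ y := fun e => hne (Subtype.ext e)
    simp only at hxy ⊢
    rcases hxy with hxy | ⟨h1, h2⟩ | ⟨h1, h2⟩
    · apply κ.1.2
      refine ⟨hxy, ?_⟩
      rintro (⟨_, h2⟩ | ⟨h1, _⟩)
      · exact hy h2
      · exact hx h1
    · rw [h1, κ.2]
      apply κ.1.2
      refine ⟨h2, ?_⟩
      rintro (⟨h3, _⟩ | ⟨_, h3⟩)
      · exact h.ne h3.symm
      · exact hne' (h1.trans h3.symm)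
    · rw [h1, κ.2]
      apply κ.1.2
      refine ⟨h2, ?_⟩
      rintro (⟨h3, _⟩ | ⟨_, h3⟩)
      · exact hne' (h3.trans h1.symm)
      · exact h.ne h3.symm⟩
  left_inv κ := by
    apply Subtype.ext
    funext x
    simp only [x.2, dif_neg, not_false_iff]
  right_inv κ := by
    apply Subtype.ext
    apply Subtype.ext
    funext x
    by_cases hx : x = v
    · simp only [hx, dif_pos]
      exact κ.2
    · simp only [hx, dif_neg, not_false_iff]

theorem chi_del [Fintype V] (G : SimpleGraph V) (u v : V) (h : G.Adj u v) (n : ℕ) :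
    chi (del G u v) n = chi G n + chi (con G u v) n := by
  classical
  unfold chi
  rw [Nat.card_congr (delEquiv G u v h n), Nat.card_congr (conEquiv G u v h n)]
  rw [← Nat.card_congr (Equiv.sumCompl (fun κ : {κ : V → Fin n //
    ∀ x y, (del G u v).Adj x y → κ x ≠ κ y} => κ.1 u = κ.1 v)), Nat.card_sum, add_comm]

theorem card_ne [Fintype V] (v : V) (d : ℕ) (hd : Fintype.card V = d + 1)
    [Fintype {x : V // x ≠ v}] : Fintype.card {x : V // x ≠ v} = d := by
  classical
  have h1 : Fintype.card {x : V // x ≠ v} = Fintype.card V - 1 := by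
    have := Fintype.card_subtype_compl (fun x : V => x = v)
    have h2 : Fintype.card {x : V // x = v} = 1 := Fintype.card_subtype_eq v
    rw [h2] at this
    rw [← this]
  omega

/-- Coefficients under deletion and contraction. -/
theorem num_del [Fintype V] (G : SimpleGraph V) (u v : V) (h : G.Adj u v) (d i : ℕ) :
    num d (fun n => (chi (del G u v) n : ℤ)) i =
      num d (fun n => (chi G n : ℤ)) i + num d (fun n => (chi (con G u v) n : ℤ)) i := by
  rw [← num_add]
  congr 1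
  funext n
  rw [chi_del G u v h n]
  push_cast
  rfl

/-- The partial sums `∑_{j ≤ i} (h_{d+1-j} - h_j)`. -/
noncomputable def P (d : ℕ) (G : SimpleGraph V) (i : ℕ) : ℤ :=
  ∑ j ∈ range (i + 1), (num d (fun n => (chi G n : ℤ)) (d + 1 - j)
    - num d (fun n => (chi G n : ℤ)) j)

/-- Telescoping of the contraction term. -/
theorem sum_con (g : ℕ → ℤ) (d : ℕ) (h : ℕ → ℤ) (h0 : h 0 = g 0)
    (h1 : ∀ j, h (j + 1) = g (j + 1) - g j) (hd : g (d + 2) = 0) (i : ℕ) (hi : i ≤ d + 1) :
    ∑ j ∈ range (i + 1), (h (d + 2 - j) - h j) = - g (d + 1 - i) - g i := by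
  induction i with
  | zero =>
    simp only [zero_add, sum_range_one, Nat.sub_zero]
    rw [h0, h1 (d + 1), hd]
    ring
  | succ i ih =>
    rw [sum_range_succ, ih (by omega), h1 i]
    obtain ⟨k, hk⟩ : ∃ k, d + 2 - (i + 1) = k + 1 := ⟨d - i, by omega⟩
    have hk2 : d + 1 - i = k + 1 := by omega
    have hk3 : d + 1 - (i + 1) = k := by omega
    rw [hk, hk2, hk3, h1 k]
    ring

theorem P_del [Fintype V] (G : SimpleGraph V) (u v : V) (h : G.Adj u v) (d i : ℕ)
    (hd : Fintype.card V = d + 1) (hd1 : 1 ≤ d) (hi : i ≤ d + 1) :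
    P (d + 1) (del G u v) i ≤ P (d + 1) G i := by
  classical
  have e1 : P (d + 1) (del G u v) i = P (d + 1) G i
      + ∑ j ∈ range (i + 1), (num (d + 1) (fun n => (chi (con G u v) n : ℤ)) (d + 2 - j)
        - num (d + 1) (fun n => (chi (con G u v) n : ℤ)) j) := by
    unfold P
    rw [← sum_add_distrib]
    refine sum_congr rfl fun j _ => ?_
    rw [num_del G u v h, num_del G u v h, show d + 1 + 1 - j = d + 2 - j from rfl]
    ring
  have hc := card_ne v d hd
  rw [e1, sum_con (num d (fun n => (chi (con G u v) n : ℤ))) d _ (num_succ_zero d _)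
    (fun j => num_succ_succ d _ j) (num_chi_eq_zero hc hd1 _ _ (by omega)) i hi]
  have h1 := num_chi_nonneg hc hd1 (con G u v) (d + 1 - i)
  have h2 := num_chi_nonneg hc hd1 (con G u v) i
  linarith

theorem P_nonneg_of_no_edge [Fintype V] (G : SimpleGraph V) (hG : ∀ u v, ¬ G.Adj u v) (d i : ℕ)
    (hd : Fintype.card V = d) (hd1 : 1 ≤ d) (hi : i ≤ d) : 0 ≤ P d G i := by
  have hchi : (fun n => (chi G n : ℤ)) = fun n : ℕ => ((n : ℤ) ^ d) := by
    funext n
    have : chi G n = n ^ d := by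
      unfold chi
      rw [← hd]
      have e : {κ : V → Fin n // ∀ x y, G.Adj x y → κ x ≠ κ y} ≃ (V → Fin n) :=
        Equiv.subtypeUnivEquiv (fun κ x y h => absurd h (hG x y))
      rw [Nat.card_congr e, Nat.card_fun, Nat.card_eq_fintype_card, Nat.card_eq_fintype_card,
        Fintype.card_fin]
    rw [this]
    push_cast
    rfl
  unfold P
  rw [hchi]
  apply le_of_eq
  symm
  apply sum_eq_zero
  intro j hj
  rw [mem_range] at hj
  rw [euler_symm d hd1 (d + 1 - j) j (by omega), sub_self]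

theorem P_nonneg [Fintype V] (G : SimpleGraph V) (d i : ℕ)
    (hd : Fintype.card V = d) (hd1 : 1 ≤ d) (hi : i ≤ d) : 0 ≤ P d G i := by
  classical
  induction G using WellFoundedLT.induction with
  | ind G ih =>
    by_cases hG : ∀ u v, ¬ G.Adj u v
    · exact P_nonneg_of_no_edge G hG d i hd hd1 hi
    · push Not at hG
      obtain ⟨u, v, h⟩ := hG
      have h1 := ih (del G u v) (del_lt G u v h)
      have hd2 : 2 ≤ d := by
        rw [← hd]
        have : Nontrivial V := ⟨⟨u, v, h.ne⟩⟩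
        exact Fintype.one_lt_card
      obtain ⟨k, rfl⟩ : ∃ k, d = k + 1 := ⟨d - 1, by omega⟩
      exact le_trans h1 (P_del G u v h k i hd (by omega) hi)

theorem main [Fintype V] (G : SimpleGraph V) (d i : ℕ)
    (hd : Fintype.card V = d) (hd1 : 1 ≤ d) (hi : i ≤ d) :
    0 ≤ ∑ j ∈ range i, num d (fun n => (chi G n : ℤ)) (d - j)
      - ∑ j ∈ range (i + 1), num d (fun n => (chi G n : ℤ)) j := by
  have h := P_nonneg G d i hd hd1 hi
  unfold P at h
  rw [sum_sub_distrib, sum_range_succ' (fun j => num d (fun n => (chi G n : ℤ)) (d + 1 - j)),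
    Nat.sub_zero, num_chi_eq_zero hd hd1 G (d + 1) (by omega), add_zero] at h
  have e : ∀ j, d + 1 - (j + 1) = d - j := fun j => by omega
  simp only [e] at h
  exact h

end Q162ChromH
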